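import Pool.Agent.KS6_44.RB.Fail
import Pool.Agent.KS6_44.RB.Dvd

namespace Pool.Agent.Results.MP_8b2dc5_pr.FactorTwoSharp

open Pool.Agent.KS6_44.RB

theorem result :
    (∀ A ε : ℝ, 0 < ε → ∃ p0 : ℕ, ∀ p : ℕ, p.Prime → p0 ≤ p →
      ∃ (V : Type) (_ : Finite V) (G : SimpleGraph V) (t : ℝ), ∀ c : ℕ,
        p ^ 2 < c → (c : ℝ) ≤ A * p ^ 2 →
        ((c : ℝ) ≤ (2 - ε) * p ^ 2 ∨ ∀ j : ℕ, ε * p ^ 2 ≤ |(c : ℝ) - j * p ^ 2|) →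
        prob G c 5 t < prob G (p ^ 2) 5 t) ∧
    (∀ (V : Type) [Finite V] (G : SimpleGraph V) (c' c k : ℕ), 0 < c → c' ∣ c → ∀ t : ℝ,
      prob G c' k t ≤ prob G c k t) := by
  refine ⟨?_, fun V _ G c' c k hc h t => prob_le_of_dvd G c' c k hc h t⟩
  intro A ε hε
  obtain ⟨p0, h5, h⟩ := fail A ε hε
  refine ⟨p0, fun p hp hp0 => ?_⟩
  have hF : Fact p.Prime := ⟨hp⟩
  exact ⟨VV p, inferInstance, Gr p, (t0 p : ℕ), h p hp0 hF⟩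

end Pool.Agent.Results.MP_8b2dc5_pr.FactorTwoSharp
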